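import Pool.Agent.Zk47.C3.Def

/-!
# The conditions on the kernels
-/

set_option autoImplicit false
set_option linter.unusedSectionVars false
set_option linter.style.haveILetI false

open scoped BigOperators Classical IsMulCommutative

noncomputable section

namespace Pool.Agent.Zk47.C3

open Pool.Agent.H254R3.IN hiding NN
open Pool.Agent.Helper884 Pool.Agent.Q288.MB
open Pool.Agent.K3h3.KB Pool.Agent.K3h3.MK
open IC (Irr)
open Pool.Agent.Zk54.MQ Pool.Agent.Zk54.MQ.C2

theorem t_C : StC := by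
  intro p hp G U Ω Ω' iG fG iU fU fΩ fΩ' aΩ P aΩ' m α π α₀ m₀ d τ hτ g hg
  have q := d.q
  have hU := d.hU
  have eqvP : ∀ x ∈ P, ∀ u : Ω → U, x * m u * x⁻¹ = m (fun ω => u (x⁻¹ • ω)) := by
    intro x hx u
    rw [d.h.eqv]
    congr 1
    funext ω
    rw [d.hP x hx]
    rfl
  have hmu : ∀ o, ∃ μ : Subgroup.center U →* ℂˣ, ∀ c : Subgroup.center U,
      g o c = ((μ c : ℂˣ) : ℂ) * g o 1 := fun o => exists_mu (hg o)
  choose μ hμ using hmu
  have n1 : ∏ ω, g (π ω) 1 ≠ 0 := Finset.prod_ne_zero_iff.mpr fun ω _ => one_ne (hg _)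
  have n2 : ∏ o, gt τ π g o 1 ≠ 0 :=
    Finset.prod_ne_zero_iff.mpr fun o _ => one_ne (gt_irr τ π hg o)
  constructor
  · intro H v hv
    have h3 : m (fun ω => v (π ω)) = 1 := by
      rw [← d.hm₀, hv]
      rfl
    have h4 : ∀ o, v o ∈ Subgroup.center U := by
      intro o
      obtain ⟨ω, rfl⟩ := q.surj o
      exact d.h.ker _ h3 ω
    have h5 := prodG (π := π) hμ (fun ω => ⟨v (π ω), h4 (π ω)⟩)
    have h6 := H _ h3
    have h7 := h5.symm.trans h6
    have h8 : ((T1 π μ (fun ω => (⟨v (π ω), h4 (π ω)⟩ : Subgroup.center U)) : ℂˣ) : ℂ) = 1 :=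
      mul_right_cancel₀ n1 (by rw [h7, one_mul])
    have h9 := prodN hτ q hU hμ (fun o => ⟨v o, h4 o⟩)
    rw [h8, one_mul] at h9
    exact h9
  · intro H u hu
    haveI : Fintype P := Fintype.ofFinite P
    have h4 : ∀ ω, u ω ∈ Subgroup.center U := fun ω => d.h.ker _ hu ω
    obtain ⟨c, hc⟩ : ∃ c : Ω → Subgroup.center U, ∀ ω, (c ω : U) = u ω :=
      ⟨fun ω => ⟨u ω, h4 ω⟩, fun _ => rfl⟩
    have hmc : ∀ x : P, m (cz Ω U (fun ω => c ((x : G)⁻¹ • ω))) = 1 := by
      intro x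
      have e1 : cz Ω U (fun ω => c ((x : G)⁻¹ • ω)) = fun ω => u ((x : G)⁻¹ • ω) :=
        funext fun ω => hc _
      rw [e1, ← eqvP x x.2, hu, mul_one, mul_inv_cancel]
    obtain ⟨A, hA⟩ : ∃ A : Ω → Subgroup.center U, A = ∏ x : P, fun ω => c ((x : G)⁻¹ • ω) :=
      ⟨_, rfl⟩
    have hA1 : m (cz Ω U A) = 1 := by
      have h1 : A ∈ (m.comp (cz Ω U)).ker := by
        rw [hA]
        exact Subgroup.prod_mem _ fun x _ => hmc x
      exact h1
    have hA2 : ∀ y ∈ P, ∀ ω, A (y • ω) = A ω := by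
      intro y hy ω
      rw [hA, Finset.prod_apply, Finset.prod_apply]
      refine Fintype.prod_equiv (Equiv.mulLeft (⟨y, hy⟩ : P)⁻¹) _ _ fun x => ?_
      congr 1
      rw [smul_smul]
      congr 1
      push_cast [Equiv.coe_mulLeft]
      group
    obtain ⟨v, hv⟩ := exists_cmp q A hA2
    have h5 : m₀ (fun o => (v o : U)) = 1 := by
      apply Subtype.ext
      rw [d.hm₀]
      have e1 : (fun ω => ((v (π ω) : Subgroup.center U) : U)) = cz Ω U A := by
        rw [hv]
        rfl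
      rw [e1, hA1]
      rfl
    have h6 := H _ h5
    have h7 := (prodN hτ q hU hμ v).symm.trans h6
    have h8 : ((T1 π μ (fun ω => v (π ω)) : ℂˣ) : ℂ) = 1 :=
      mul_right_cancel₀ n2 (by rw [h7, one_mul])
    have h9 : T1 π μ A = 1 := by
      rw [hv]
      exact Units.ext h8
    have h10 : T1 π μ A = T1 π μ c ^ Nat.card P := by
      have e1 : ∀ x : P, T1 π μ (fun ω => c ((x : G)⁻¹ • ω)) = T1 π μ c :=
        fun x => T1_shift q x.2 c
      rw [hA, map_prod]
      refine (Finset.prod_congr rfl fun x _ => e1 x).trans ?_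
      rw [Finset.prod_const, Finset.card_univ, Nat.card_eq_fintype_card]
      rfl
    have h11 : T1 π μ c = 1 := by
      have k1 : orderOf (T1 π μ c) ∣ Nat.card P := orderOf_dvd_of_pow_eq_one (by rw [← h10, h9])
      have k2 : orderOf (T1 π μ c) ∣ Nat.card U := orderOf_dvd_of_pow_eq_one (T1_pow π μ c)
      exact orderOf_eq_one_iff.mp (Nat.eq_one_of_dvd_coprimes (coprime_P hU P) k1 k2)
    have h12 := prodG (π := π) hμ c
    rw [h11, Units.val_one, one_mul] at h12
    simp_rw [hc] at h12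
    exact h12

end Pool.Agent.Zk47.C3
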