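import Pool.Agent.Zk47.C3.PieceC
import Pool.Agent.Zk47.C3.PieceE
import Pool.Agent.Zk43.C3D
import Pool.Agent.Zk52.C3B3
import Pool.Agent.Zk67.C3B
import Pool.Agent.Zk20.C3A
import Pool.Agent.Zk54.C3.Z
import Pool.Agent.Zk54.MQ.E9b

/-!
# The comparison for factors of order prime to `p`
-/

set_option autoImplicit false

namespace Pool.Agent.Zk47.C3

open Pool.Agent.K3h3.KB Pool.Agent.K3h3.MK
open Pool.Agent.K3h83.IN (S1 S2 S3b)
open Pool.Agent.Zk54.MQ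

theorem t_Z : StZ :=
  Pool.Agent.Zk54.C3.t_Z Pool.Agent.Zk20.C3A.t_A Pool.Agent.Zk67.C3.t_B1 Pool.Agent.Zk52.C3.t_B3
    t_C (t_E Pool.Agent.Zk67.C3.t_B2 Pool.Agent.Zk52.C3.t_B3 Pool.Agent.Zk52.C3.t_F
      Pool.Agent.Zk43.C3D.t_D) Pool.Agent.Zk52.C3.t_F

/-- the general form: all automorphisms have an order prime to `p` -/
theorem compare_prime {p : ℕ} [Fact p.Prime] {G U Ω : Type} [Group G] [Finite G] [Group U]
    [Finite U] [Fintype Ω] [MulAction G Ω] {m : (Ω → U) →* G} {α : G → Ω → MulAut U}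
    (s1 : S1) (s2 : S2) (s3b : S3b) (h : WE m α) (hU : ¬ p ∣ Nat.card U)
    (hN : ∀ g ω, ∃ N : ℕ, ¬ p ∣ N ∧ (α g ω) ^ N = 1) (P : Sylow p G)
    (hs : m.range ⊔ Pool.Agent.K3h3.MK.NN P = ⊤) :
    wt (cl p) G = wt (cl p) (Pool.Agent.K3h3.MK.NN P) :=
  t_Z m α s1 s2 s3b h hU hN P hs

/-- C3: the automorphisms are products of inner ones and powers of one automorphism -/
theorem compare3 {p : ℕ} [hp : Fact p.Prime] {G U Ω : Type} [Group G] [Finite G] [Group U]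
    [Finite U] [Fintype Ω] [MulAction G Ω] {m : (Ω → U) →* G} {α : G → Ω → MulAut U}
    (s1 : S1) (s2 : S2) (s3b : S3b) (h : WE m α) (hU : ¬ p ∣ Nat.card U) (a : MulAut U) (b : ℕ)
    (hb : ¬ p ∣ b) (u₁ : U) (hab : ∀ v, (a ^ b) v = u₁ * v * u₁⁻¹)
    (_hfix : ∀ z ∈ Subgroup.center U, a z = z)
    (hα : ∀ (g : G) (ω : Ω), ∃ (i : ℕ) (u : U), ∀ v, α g ω v = u * (a ^ i) v * u⁻¹)
    (P : Sylow p G) (hs : m.range ⊔ Pool.Agent.K3h3.MK.NN P = ⊤) :
    wt (cl p) G = wt (cl p) (Pool.Agent.K3h3.MK.NN P) := by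
  refine compare_prime s1 s2 s3b h hU (fun g ω => ?_) P hs
  obtain ⟨i, u, hi⟩ := hα g ω
  refine ⟨b * Nat.card U, fun hd => (hp.out.dvd_mul.mp hd).elim hb hU, ?_⟩
  -- modulo the inner automorphisms the `b`-th power is trivial
  haveI : (MulAut.conj (G := U)).range.Normal := e9_inn_normal
  let q : MulAut U →* MulAut U ⧸ (MulAut.conj (G := U)).range := QuotientGroup.mk' _
  have hq : ∀ x : U, q (MulAut.conj x) = 1 := fun x => (QuotientGroup.eq_one_iff _).2 ⟨x, rfl⟩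
  have h1 : α g ω = MulAut.conj u * a ^ i := by
    ext v
    rw [hi]
    rfl
  have h2 : a ^ b = MulAut.conj u₁ := by
    ext v
    rw [hab]
    rfl
  have h3 : q (α g ω ^ b) = 1 := by
    rw [map_pow, h1, map_mul, hq, one_mul, ← map_pow, ← pow_mul, mul_comm, pow_mul, h2, ← map_pow]
    exact hq _
  obtain ⟨x, hx⟩ : ∃ x : U, MulAut.conj x = α g ω ^ b := (QuotientGroup.eq_one_iff _).1 h3
  rw [pow_mul, ← hx, ← map_pow, pow_card_eq_one', map_one]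

end Pool.Agent.Zk47.C3
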