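import Pool.Agent.Zk54.MQ.E7
import Pool.Agent.Zk54.MQ.M12

/-!
# Factors of order prime to `p` with automorphisms of order prime to `p`
-/

set_option autoImplicit false
set_option linter.unusedSectionVars false
set_option linter.style.haveILetI false

open scoped BigOperators Classical

noncomputable section

namespace Pool.Agent.Zk47.C3

open Pool.Agent.Helper884 Pool.Agent.H254R3.IN
open Pool.Agent.K3h3.KB Pool.Agent.K3h3.MK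
open IC (Irr)
open Pool.Agent.K3h83.IN (ov wo fixes S1 S2 S3b)
open Pool.Agent.Zk54.MQ

/-- the situation after the change of coordinates: the elements of `P` permute the coordinates -/
structure CD {p : ℕ} [hp : Fact p.Prime] {G U Ω Ω' : Type} [Group G] [Finite G] [Group U]
    [Finite U] [Fintype Ω] [Fintype Ω'] [MulAction G Ω] (P : Sylow p G)
    [MulAction (Pool.Agent.K3h3.MK.NN P) Ω'] (m : (Ω → U) →* G) (α : G → Ω → MulAut U)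
    (π : Ω → Ω') (α₀ : Pool.Agent.K3h3.MK.NN P → Ω' → MulAut U)
    (m₀ : (Ω' → U) →* Pool.Agent.K3h3.MK.NN P) : Prop where
  h : WE m α
  hU : ¬ p ∣ Nat.card U
  hP : ∀ x ∈ P, ∀ ω, α x ω = 1
  q : C2.QD P π
  hα₀ : ∀ (n : Pool.Agent.K3h3.MK.NN P) (ω : Ω), α (n : G) ω = α₀ n (π ω)
  hs : m.range ⊔ Pool.Agent.K3h3.MK.NN P = ⊤
  hm₀ : ∀ v : Ω' → U, ((m₀ v : Pool.Agent.K3h3.MK.NN P) : G) = m (fun ω => v (π ω))

/-- A: the change of coordinates -/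
def StA : Prop := ∀ {p : ℕ} [Fact p.Prime] {G U Ω : Type} [Group G] [Finite G] [Group U] [Finite U]
  [Fintype Ω] [MulAction G Ω] (m : (Ω → U) →* G) (α : G → Ω → MulAut U), WE m α →
  (∀ g ω, ∃ N : ℕ, ¬ p ∣ N ∧ (α g ω) ^ N = 1) → ∀ P : Sylow p G,
  ∃ (m₁ : (Ω → U) →* G) (α₁ : G → Ω → MulAut U), WE m₁ α₁ ∧ m₁.range = m.range ∧
    (∀ x ∈ P, ∀ ω, α₁ x ω = 1) ∧
    ∀ n ∈ Pool.Agent.K3h3.MK.NN P, ∀ x ∈ P, ∀ ω, α₁ n (x • ω) = α₁ n ω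

/-- B1: the functions which are constant on the orbits normalize `P` -/
def StB1 : Prop := ∀ {p : ℕ} [Fact p.Prime] {G U Ω : Type} [Group G] [Finite G] [Group U] [Finite U]
  [Fintype Ω] [MulAction G Ω] (m : (Ω → U) →* G) (α : G → Ω → MulAut U) (P : Sylow p G), WE m α →
  (∀ x ∈ P, ∀ ω, α x ω = 1) → ∀ w : Ω → U, (∀ x ∈ P, ∀ ω, w (x • ω) = w ω) →
  m w ∈ Pool.Agent.K3h3.MK.NN P

/-- B2: conversely (as `C2.exists_const`) -/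
def StB2 : Prop := ∀ {p : ℕ} [Fact p.Prime] {G U Ω : Type} [Group G] [Finite G] [Group U] [Finite U]
  [Fintype Ω] [MulAction G Ω] (m : (Ω → U) →* G) (α : G → Ω → MulAut U) (P : Sylow p G), WE m α →
  ¬ p ∣ Nat.card U → (∀ x ∈ P, ∀ ω, α x ω = 1) → ∀ u : Ω → U, m u ∈ Pool.Agent.K3h3.MK.NN P →
  ∃ w : Ω → U, m w = m u ∧ ∀ x ∈ P, ∀ ω, w (x • ω) = w ω

/-- B3: the data in `N_G(P)` -/
def StB3 : Prop := ∀ {p : ℕ} [Fact p.Prime] {G U Ω Ω' : Type} [Group G] [Finite G] [Group U]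
  [Finite U] [Fintype Ω] [Fintype Ω'] [MulAction G Ω] (P : Sylow p G)
  [MulAction (Pool.Agent.K3h3.MK.NN P) Ω'] (m : (Ω → U) →* G) (α : G → Ω → MulAut U)
  (π : Ω → Ω') (α₀ : Pool.Agent.K3h3.MK.NN P → Ω' → MulAut U)
  (m₀ : (Ω' → U) →* Pool.Agent.K3h3.MK.NN P), CD P m α π α₀ m₀ → WE m₀ α₀

/-- C: the conditions on the kernels agree (as `C2.ker_iff`) -/
def StC : Prop := ∀ {p : ℕ} [Fact p.Prime] {G U Ω Ω' : Type} [Group G] [Finite G] [Group U]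
  [Finite U] [Fintype Ω] [Fintype Ω'] [MulAction G Ω] (P : Sylow p G)
  [MulAction (Pool.Agent.K3h3.MK.NN P) Ω'] (m : (Ω → U) →* G) (α : G → Ω → MulAut U)
  (π : Ω → Ω') (α₀ : Pool.Agent.K3h3.MK.NN P → Ω' → MulAut U)
  (m₀ : (Ω' → U) →* Pool.Agent.K3h3.MK.NN P), CD P m α π α₀ m₀ →
  ∀ τ : ℕ → (ℂ ≃+* ℂ), C2.IsTau U τ → ∀ g : Ω' → U → ℂ, (∀ o, IsIrr (g o)) →
  ((∀ u, m u = 1 → ∏ ω, g (π ω) (u ω) = ∏ ω, g (π ω) 1) ↔
    ∀ v, m₀ v = 1 → ∏ o, C2.gt τ π g o (v o) = ∏ o, C2.gt τ π g o 1)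

/-- F1: the elements of `N_G(P)` which fix the character and its partner -/
def StF : Prop := ∀ {p : ℕ} [Fact p.Prime] {G U Ω Ω' : Type} [Group G] [Finite G] [Group U]
  [Finite U] [Fintype Ω] [Fintype Ω'] [MulAction G Ω] (P : Sylow p G)
  [MulAction (Pool.Agent.K3h3.MK.NN P) Ω'] (m : (Ω → U) →* G) (α : G → Ω → MulAut U)
  (π : Ω → Ω') (α₀ : Pool.Agent.K3h3.MK.NN P → Ω' → MulAut U)
  (m₀ : (Ω' → U) →* Pool.Agent.K3h3.MK.NN P), CD P m α π α₀ m₀ →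
  ∀ τ : ℕ → (ℂ ≃+* ℂ), ∀ g : Ω' → U → ℂ, (∀ o, IsIrr (g o)) →
  ∀ (θ : m.range → ℂ) (θ₀ : m₀.range → ℂ),
  (∀ u, θ ⟨m u, ⟨u, rfl⟩⟩ = ∏ ω, g (π ω) (u ω)) →
  (∀ v, θ₀ ⟨m₀ v, ⟨v, rfl⟩⟩ = ∏ o, C2.gt τ π g o (v o)) →
  ∀ n : Pool.Agent.K3h3.MK.NN P,
    (fixes m.range.subtype θ (n : G) ↔ ∀ o v, g (n • o) (α₀ n o v) = g o v) ∧
    (fixes m₀.range.subtype θ₀ n ↔ ∀ o v, g (n • o) (α₀ n o v) = g o v)

/-- D: the local operators, normalized to determinant one -/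
def StD : Prop := ∀ {H U Ω : Type} [Group H] [Group U] [Finite U] [Fintype Ω] [MulAction H Ω]
  (β : H → Ω → MulAut U), (∀ x y o, β (x * y) o = β x (y • o) * β y o) →
  ∀ g : Ω → U → ℂ, (∀ o, IsIrr (g o)) → (∀ x o v, g (x • o) (β x o v) = g o v) →
  ∃ (n : Ω → ℕ) (R : ∀ o, U →* Matrix (Fin (n o)) (Fin (n o)) ℂ)
    (A : H → ∀ o o' : Ω, Matrix (Fin (n o')) (Fin (n o)) ℂ) (l : H → H → Ω → ℂ),
    (∀ o u, (R o u).trace = g o u) ∧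
    (∀ x o o', x • o = o' → ∀ u, A x o o' * R o u = R o' (β x o u) * A x o o') ∧
    (∀ x y o, l x y o ≠ 0 ∧ (l x y o) ^ (Nat.card U ^ 2) = 1) ∧
    (∀ x y o o' o'', y • o = o' → x • o' = o'' →
      A x o' o'' * A y o o' = l x y o • A (x * y) o o'') ∧
    (∀ x o (w : U), x • o = o → (∀ v, β x o v = w * v * w⁻¹) →
      ∃ r : ℂ, r ≠ 0 ∧ r ^ (Nat.card U ^ 2) = 1 ∧ A x o o = r • R o w)

/-- E: the characters over the character and over its partner (as `PD.wo_pair`) -/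
def StE : Prop := ∀ {p : ℕ} [Fact p.Prime] {G U Ω Ω' : Type} [Group G] [Finite G] [Group U]
  [Finite U] [Fintype Ω] [Fintype Ω'] [MulAction G Ω] (P : Sylow p G)
  [MulAction (Pool.Agent.K3h3.MK.NN P) Ω'] (m : (Ω → U) →* G) (α : G → Ω → MulAut U)
  (π : Ω → Ω') (α₀ : Pool.Agent.K3h3.MK.NN P → Ω' → MulAut U)
  (m₀ : (Ω' → U) →* Pool.Agent.K3h3.MK.NN P), CD P m α π α₀ m₀ → S1 → S3b →
  ∀ τ : ℕ → (ℂ ≃+* ℂ), (∀ k, Nat.Coprime k (Nat.card U) → ∀ z : ℂ, z ^ (Nat.card U ^ 2) = 1 →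
    τ k z = z ^ k) → ∀ g : Ω' → U → ℂ, (∀ o, IsIrr (g o)) →
  ∀ (θ : m.range → ℂ) (θ₀ : m₀.range → ℂ),
  (∀ u, θ ⟨m u, ⟨u, rfl⟩⟩ = ∏ ω, g (π ω) (u ω)) →
  (∀ v, θ₀ ⟨m₀ v, ⟨v, rfl⟩⟩ = ∏ o, C2.gt τ π g o (v o)) →
  ∀ {A : Type} [CommRing A] (w : ℕ →* A),
    ∃ (k : ℕ) (κ : A), wo w m.range.subtype θ = w k * (w (ndeg θ) * κ) ∧
      wo w m₀.range.subtype θ₀ = w k * (w (ndeg θ₀) * κ)

/-- Z: the comparison -/
def StZ : Prop := ∀ {p : ℕ} [Fact p.Prime] {G U Ω : Type} [Group G] [Finite G] [Group U] [Finite U]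
  [Fintype Ω] [MulAction G Ω] (m : (Ω → U) →* G) (α : G → Ω → MulAut U), S1 → S2 → S3b → WE m α →
  ¬ p ∣ Nat.card U → (∀ g ω, ∃ N : ℕ, ¬ p ∣ N ∧ (α g ω) ^ N = 1) →
  ∀ P : Sylow p G, m.range ⊔ Pool.Agent.K3h3.MK.NN P = ⊤ →
    wt (cl p) G = wt (cl p) (Pool.Agent.K3h3.MK.NN P)

end Pool.Agent.Zk47.C3
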