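import Pool.Agent.Zk47.C3.Def

/-!
# The operators for one of the two sides
-/

set_option autoImplicit false
set_option linter.unusedSectionVars false
set_option linter.style.haveILetI false

open scoped BigOperators Classical

noncomputable section

namespace Pool.Agent.Zk47.C3

open Pool.Agent.Helper884 Pool.Agent.H254R3.IN
open Pool.Agent.K3h3.KB Pool.Agent.K3h3.MK
open IC (Irr)
open Pool.Agent.Zk54.MQ

section

variable {U J : Type} [Group U] [Fintype J] {n : J → ℕ}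

theorem bd_eq (R : ∀ j, U →* Matrix (Fin (n j)) (Fin (n j)) ℂ) (u : U) (j : J)
    (a b : Fin (n j)) : bd R u ⟨j, a⟩ ⟨j, b⟩ = R j u a b :=
  Matrix.blockDiagonal'_apply_eq _ _ _ _

theorem bd_ne (R : ∀ j, U →* Matrix (Fin (n j)) (Fin (n j)) ℂ) (u : U) {i j : J}
    (a : Fin (n i)) (b : Fin (n j)) (h : i ≠ j) : bd R u ⟨i, a⟩ ⟨j, b⟩ = 0 :=
  Matrix.blockDiagonal'_apply_ne _ _ _ h

theorem mul_bd (T : Matrix (Σ j, Fin (n j)) (Σ j, Fin (n j)) ℂ)
    (R : ∀ j, U →* Matrix (Fin (n j)) (Fin (n j)) ℂ) (u : U) (p : Σ j, Fin (n j)) (j : J)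
    (b : Fin (n j)) : (T * bd R u) p ⟨j, b⟩ = ∑ y, T p ⟨j, y⟩ * R j u y b := by
  rw [Matrix.mul_apply, Fintype.sum_sigma, Finset.sum_eq_single j]
  · refine Finset.sum_congr rfl fun y _ => ?_
    rw [bd_eq]
  · intro k _ hk
    refine Finset.sum_eq_zero fun y _ => ?_
    rw [bd_ne _ _ _ _ hk, mul_zero]
  · intro h
    exact absurd (Finset.mem_univ _) h

theorem bd_mul' (T : Matrix (Σ j, Fin (n j)) (Σ j, Fin (n j)) ℂ)
    (R : ∀ j, U →* Matrix (Fin (n j)) (Fin (n j)) ℂ) (u : U) (q : Σ j, Fin (n j)) (j : J)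
    (a : Fin (n j)) : (bd R u * T) ⟨j, a⟩ q = ∑ y, R j u a y * T ⟨j, y⟩ q := by
  rw [Matrix.mul_apply, Fintype.sum_sigma, Finset.sum_eq_single j]
  · refine Finset.sum_congr rfl fun y _ => ?_
    rw [bd_eq]
  · intro k _ hk
    refine Finset.sum_eq_zero fun y _ => ?_
    rw [bd_ne _ _ _ _ hk.symm, zero_mul]
  · intro h
    exact absurd (Finset.mem_univ _) h

end

/-- **The operators for one of the two sides.** -/
theorem side3 {E₁ U₁ N Ω : Type} [Group E₁] [Finite E₁] [Group U₁] [Finite U₁] [Group N]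
    [Fintype Ω] [MulAction N Ω] (m₁ : (Ω → U₁) →* E₁) (hm₁ : Function.Surjective m₁)
    (hk : ∀ u, m₁ u = 1 → ∀ ω, u ω ∈ Subgroup.center U₁)
    (n : Ω → ℕ) (R : ∀ j, U₁ →* Matrix (Fin (n j)) (Fin (n j)) ℂ)
    (χ : Ω → U₁ → ℂ) (hχ : ∀ j, IsIrr (χ j)) (hR : ∀ j u, (R j u).trace = χ j u)
    (θ : E₁ → ℂ) (hθ : IsIrr θ) (hθf : ∀ u, θ (m₁ u) = ∏ ω, χ ω (u ω))
    (A : N → ∀ ω ω' : Ω, Matrix (Fin (n ω')) (Fin (n ω)) ℂ) (β : N → Ω → U₁ → U₁)
    (hA : ∀ x ω ω', x • ω = ω' → ∀ u, A x ω ω' * R ω u = R ω' (β x ω u) * A x ω ω')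
    (l : N → N → Ω → ℂ)
    (hl : ∀ x y ω ω' ω'', y • ω = ω' → x • ω' = ω'' →
      A x ω' ω'' * A y ω ω' = l x y ω • A (x * y) ω ω'') :
    ∃ (V : Type) (_ : AddCommGroup V) (_ : Module ℂ V) (_ : FiniteDimensional ℂ V)
      (σ : Representation ℂ E₁ V) (W : N → (V →ₗ[ℂ] V)),
      σ.IsIrreducible ∧ σ.character = θ ∧
      (∀ x y, W x ∘ₗ W y = (∏ ω, l x y ω) • W (x * y)) ∧
      (∀ x (v v' : Ω → U₁), (∀ ω, v' (x • ω) = β x ω (v ω)) →
        W x ∘ₗ σ (m₁ v) = σ (m₁ v') ∘ₗ W x) ∧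
      ∀ x (v : Ω → U₁) (r : Ω → ℂ), (∀ ω : Ω, x • ω = ω) →
        (∀ ω, A x ω ω = r ω • R ω (v ω)) → W x = (∏ ω, r ω) • σ (m₁ v) := by
  let T : N → Ω → Matrix (Σ j, Fin (n j)) (Σ j, Fin (n j)) ℂ := fun x ω p q =>
    if q.1 = ω ∧ p.1 = x • ω then A x q.1 p.1 p.2 q.2 else 0
  have hT1 : ∀ x ω (p q : Σ j, Fin (n j)), q.1 = ω → p.1 = x • ω →
      T x ω p q = A x q.1 p.1 p.2 q.2 := fun x ω p q h1 h2 => if_pos ⟨h1, h2⟩
  have hT0 : ∀ x ω (p q : Σ j, Fin (n j)), ¬ (q.1 = ω ∧ p.1 = x • ω) → T x ω p q = 0 :=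
    fun x ω p q h1 => if_neg h1
  obtain ⟨V, i1, i2, i3, σ, W, h1, h2, h3, h4, h5⟩ := ops (N := N) m₁ hm₁ n R id θ hθ
    (fun v => by rw [hθf]; exact Finset.prod_congr rfl fun ω _ => (hR _ _).symm)
    (fun v hv ω => ⟨_, E3.central (R ω) (hχ _) (hR _) _ (hk v hv ω)⟩)
    T
    (fun x ω p q _ hp => hT0 x ω p q fun h => hp h.2)
    l
    (by
      rintro x y ω ⟨i, a⟩ ⟨j, b⟩ hq
      have hq' : j = ω := hq
      subst hq'
      rw [Matrix.mul_apply, Fintype.sum_sigma, Finset.sum_eq_single (y • j)]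
      · by_cases hi : i = x • y • j
        · have e1 : ∀ c : Fin (n (y • j)), T x (y • j) ⟨i, a⟩ ⟨y • j, c⟩ * T y j ⟨y • j, c⟩ ⟨j, b⟩ =
              A x (y • j) i a c * A y j (y • j) c b := fun c => by
            rw [hT1 x (y • j) _ _ rfl hi, hT1 y j _ _ rfl rfl]
          rw [Finset.sum_congr rfl fun c _ => e1 c, hT1 (x * y) j _ _ rfl (by rw [mul_smul]; exact hi)]
          have e2 := congrFun (congrFun (hl x y j (y • j) i rfl hi.symm) a) b
          rw [Matrix.mul_apply, Matrix.smul_apply, smul_eq_mul] at e2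
          exact e2
        · rw [hT0 (x * y) j _ _ (fun h => hi (by rw [← mul_smul]; exact h.2)), mul_zero]
          refine Finset.sum_eq_zero fun c _ => ?_
          rw [hT0 x (y • j) _ _ (fun h => hi h.2), zero_mul]
      · intro k _ hk
        refine Finset.sum_eq_zero fun c _ => ?_
        rw [hT0 y j _ _ (fun h => hk h.2), mul_zero]
      · intro h
        exact absurd (Finset.mem_univ _) h)
    β
    (by
      intro x ω u
      ext ⟨i, a⟩ ⟨j, b⟩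
      rw [mul_bd, bd_mul']
      by_cases h : j = ω ∧ i = x • ω
      · obtain ⟨rfl, rfl⟩ := h
        have e2 := congrFun (congrFun (hA x j (x • j) rfl u) a) b
        rw [Matrix.mul_apply, Matrix.mul_apply] at e2
        have e3 : ∀ y, T x j ⟨x • j, a⟩ ⟨j, y⟩ = A x j (x • j) a y := fun y => hT1 _ _ _ _ rfl rfl
        have e4 : ∀ y, T x j ⟨x • j, y⟩ ⟨j, b⟩ = A x j (x • j) y b := fun y => hT1 _ _ _ _ rfl rfl
        rw [Finset.sum_congr rfl fun y _ => by rw [e3], e2]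
        exact Finset.sum_congr rfl fun y _ => by rw [e4]
      · rw [Finset.sum_eq_zero fun y _ => by rw [hT0 x ω _ _ h, zero_mul],
          Finset.sum_eq_zero fun y _ => by rw [hT0 x ω _ _ h, mul_zero]])
  refine ⟨V, i1, i2, i3, σ, W, h1, h2, h3, h4, ?_⟩
  intro x v r hx hr
  refine h5 x v r hx ?_
  rintro ω ⟨i, a⟩ ⟨j, b⟩ hq
  have hq' : j = ω := hq
  subst hq'
  by_cases hi : i = j
  · subst hi
    rw [hT1 x i _ _ rfl (hx i).symm, bd_eq]
    exact congrFun (congrFun (hr i) a) b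
  · rw [hT0 x j _ _ (fun h => hi (h.2.trans (hx j))), bd_ne _ _ _ _ hi, mul_zero]

end Pool.Agent.Zk47.C3
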